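import Pool.Agent.H67.WT.Lib

/-!
# Calculus of classes in the Witt group
-/

set_option autoImplicit false

open Matrix Pool.Agent.H63.WT

namespace Pool.Agent.H67.WT

variable {F : Type} [Field F] {ι κ : Type} [Fintype ι] [Fintype κ]

/-- the class of a nondegenerate symmetric matrix -/
noncomputable def mk (a : QF F) : WG F :=
  QuotientAddGroup.mk' (AddSubgroup.closure (rel F)) (FreeAbelianGroup.of a)

theorem mk_met {a : QF F} (h : Met a.2.1) : mk a = 0 := by
  refine (QuotientAddGroup.eq_zero_iff _).2 (AddSubgroup.subset_closure (Or.inl ⟨a, h, rfl⟩))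

theorem mk_osum (a b c : QF F) (h : c.1 = a.1 + b.1)
    (hc : reindex (finCongr h) (finCongr h) c.2.1 = osum a.2.1 b.2.1) :
    mk c = mk a + mk b := by
  have h1 : FreeAbelianGroup.of c - FreeAbelianGroup.of a - FreeAbelianGroup.of b ∈
      AddSubgroup.closure (rel F) := AddSubgroup.subset_closure (Or.inr ⟨a, b, c, h, hc, rfl⟩)
  have h2 : mk c - mk a - mk b = 0 := (QuotientAddGroup.eq_zero_iff _).2 h1
  rw [sub_sub, sub_eq_zero] at h2
  exact h2

/-- the orthogonal sum -/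
def oq (a b : QF F) : QF F := ⟨a.1 + b.1, osum a.2.1 b.2.1, sn_reindex _ (sn_sum a.2.2 b.2.2)⟩

/-- the negative -/
def nq (a : QF F) : QF F := ⟨a.1, -a.2.1, sn_neg a.2.2⟩

theorem mk_oq (a b : QF F) : mk (oq a b) = mk a + mk b := by
  refine mk_osum a b (oq a b) rfl ?_
  ext i j
  rfl

theorem is_osum {m n : ℕ} (A : Matrix (Fin m) (Fin m) F) (B : Matrix (Fin n) (Fin n) F) :
    Is (fromBlocks A 0 0 B) (osum A B) := is_reindex finSumFinEquiv _

theorem mk_eq {a b : QF F} (h : Is a.2.1 b.2.1) : mk a = mk b := by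
  have h1 : mk a + mk (nq b) = 0 := by
    rw [← mk_oq]
    exact mk_met ((is_osum _ _).met h.met_neg)
  have h2 : mk b + mk (nq b) = 0 := by
    rw [← mk_oq]
    exact mk_met ((is_osum _ _).met (met_self_neg _))
  exact add_right_cancel (h1.trans h2.symm)

theorem mk_nq (a : QF F) : mk (nq a) = -mk a := by
  have h2 : mk a + mk (nq a) = 0 := by
    rw [← mk_oq]
    exact mk_met ((is_osum _ _).met (met_self_neg _))
  exact (neg_eq_of_add_eq_zero_right h2).symm

/-- the class of a form isometric to `a` -/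
theorem cls_eq [DecidableEq ι] {A : Matrix ι ι F} (hA : SN A) {a : QF F} (h : Is A a.2.1) :
    cls A = mk a := by
  classical
  have h1 : SN (reindex (Fintype.equivFin ι) (Fintype.equivFin ι) A) := sn_reindex _ hA
  have h2 : cls A = mk ⟨_, _, h1⟩ := dif_pos h1
  rw [h2]
  exact mk_eq ((is_reindex _ A).symm.trans h)

theorem cls_ex [DecidableEq ι] {A : Matrix ι ι F} (hA : SN A) :
    ∃ a : QF F, Is A a.2.1 ∧ cls A = mk a := by
  refine ⟨⟨_, _, sn_reindex (Fintype.equivFin ι) hA⟩, is_reindex _ A, ?_⟩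
  exact cls_eq hA (is_reindex _ A)

theorem cls_congr [DecidableEq ι] [DecidableEq κ] {A : Matrix ι ι F} {B : Matrix κ κ F}
    (hA : SN A) (hB : SN B) (h : Is A B) : cls A = cls B := by
  obtain ⟨b, hb, he⟩ := cls_ex hB
  rw [he]
  exact cls_eq hA (h.trans hb)

theorem cls_sum [DecidableEq ι] [DecidableEq κ] {A : Matrix ι ι F} {B : Matrix κ κ F}
    (hA : SN A) (hB : SN B) : cls (fromBlocks A 0 0 B) = cls A + cls B := by
  obtain ⟨a, ha, he⟩ := cls_ex hA
  obtain ⟨b, hb, he'⟩ := cls_ex hB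
  rw [he, he', ← mk_oq]
  exact cls_eq (sn_sum hA hB) ((Is.sum ha hb).trans (is_osum _ _))

theorem cls_neg [DecidableEq ι] {A : Matrix ι ι F} (hA : SN A) : cls (-A) = -cls A := by
  obtain ⟨a, ha, he⟩ := cls_ex hA
  rw [he, ← mk_nq]
  exact cls_eq (sn_neg hA) ha.neg

theorem cls_met [DecidableEq ι] {A : Matrix ι ι F} (hA : SN A) (h : Met A) : cls A = 0 := by
  obtain ⟨a, ha, he⟩ := cls_ex hA
  rw [he]
  exact mk_met (ha.met h)

theorem is_mul [DecidableEq ι] [DecidableEq κ] (A : Matrix ι ι F) {U : Matrix ι κ F}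
    {V : Matrix κ ι F} (h : U * V = 1) (h' : V * U = 1) : Is (Uᵀ * A * U) A := by
  refine ⟨LinearEquiv.ofLinearMap U.mulVecLin V.mulVecLin ?_ ?_, fun x y => ?_⟩
  · rw [← mulVecLin_mul, h, mulVecLin_one]
  · rw [← mulVecLin_mul, h', mulVecLin_one]
  · change (U *ᵥ x) ⬝ᵥ (A *ᵥ (U *ᵥ y)) = x ⬝ᵥ ((Uᵀ * A * U) *ᵥ y)
    rw [← mulVec_mulVec, ← mulVec_mulVec, dotProduct_mulVec x Uᵀ, vecMul_transpose]

theorem sn_mul [DecidableEq ι] [DecidableEq κ] {A : Matrix ι ι F} (hA : SN A) {U : Matrix ι κ F}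
    {V : Matrix κ ι F} (h : U * V = 1) (h' : V * U = 1) : SN (Uᵀ * A * U) := by
  refine ⟨?_, ?_⟩
  · rw [Matrix.IsSymm, transpose_mul, transpose_mul, transpose_transpose, hA.1, Matrix.mul_assoc]
  · refine det_ne_zero_of_right_inverse (B := V * A⁻¹ * Vᵀ) ?_
    have h1 : A * A⁻¹ = 1 := mul_nonsing_inv _ (isUnit_iff_ne_zero.2 hA.2)
    calc Uᵀ * A * U * (V * A⁻¹ * Vᵀ) = Uᵀ * (A * (U * V) * A⁻¹) * Vᵀ := by
          simp only [Matrix.mul_assoc]
      _ = (V * U)ᵀ := by rw [h, Matrix.mul_one, h1, Matrix.mul_one, transpose_mul]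
      _ = 1 := by rw [h', transpose_one]

theorem cls_surj (x : WG F) : ∃ a : QF F, x = mk a := by
  obtain ⟨y, rfl⟩ := QuotientAddGroup.mk'_surjective (AddSubgroup.closure (rel F)) x
  have hz : SN (0 : Matrix (Fin 0) (Fin 0) F) :=
    ⟨Subsingleton.elim _ _, by rw [det_isEmpty]; exact one_ne_zero⟩
  have h0 : mk (⟨0, 0, hz⟩ : QF F) = 0 := mk_met ⟨0, by simp, fun i => i.elim0, by
    simpa using (linearIndependent_empty_type : LinearIndependent F
      (fun i : Fin 0 => (i.elim0 : Fin 0 → F))), fun i => i.elim0⟩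
  induction y using FreeAbelianGroup.induction_on with
  | zero => exact ⟨_, by rw [map_zero]; exact h0.symm⟩
  | of a => exact ⟨a, rfl⟩
  | neg a h => exact ⟨nq a, by rw [map_neg, mk_nq]; rfl⟩
  | add x y hx hy =>
    obtain ⟨a, ha⟩ := hx
    obtain ⟨b, hb⟩ := hy
    refine ⟨oq a b, ?_⟩
    rw [map_add, mk_oq, ha, hb]
    rfl

theorem pf_CLS : T_CLS := by
  intro F _ _
  refine ⟨?_, ?_, ?_, ?_, ?_⟩
  · intro ι _ _ A hA h
    exact cls_met hA h
  · intro ι κ _ _ _ _ A B hA hB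
    exact cls_sum hA hB
  · intro ι κ _ _ _ _ A U V hA h h'
    exact ⟨sn_mul hA h h', cls_congr (sn_mul hA h h') hA (is_mul A h h')⟩
  · intro ι _ _ A hA
    exact cls_neg hA
  · intro x
    obtain ⟨a, rfl⟩ := cls_surj x
    exact ⟨a.1, a.2.1, a.2.2, (cls_eq a.2.2 (Is.refl _)).symm⟩

end Pool.Agent.H67.WT
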