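import Pool.Agent.H67.WT.CLS

/-!
# A form with trivial class is metabolic
-/

set_option autoImplicit false

open Matrix Pool.Agent.H63.WT

namespace Pool.Agent.H67.WT

variable {F : Type} [Field F]

/-- Witt equivalence -/
def Rq (a b : QF F) : Prop := Met (fromBlocks a.2.1 0 0 (-b.2.1))

theorem Rq.of_is {a b : QF F} (h : Is a.2.1 b.2.1) : Rq a b := h.met_neg

theorem neg_blocks {ι κ : Type} (A : Matrix ι ι F) (B : Matrix κ κ F) :
    -fromBlocks A 0 0 B = fromBlocks (-A) 0 0 (-B) := by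
  rw [fromBlocks_neg, neg_zero, neg_zero]

theorem Rq.symm {a b : QF F} (h : Rq a b) : Rq b a := by
  have h1 := met_neg h
  rw [neg_blocks, neg_neg] at h1
  exact (is_comm _ _).met h1

theorem Rq.trans {a b c : QF F} (h : Rq a b) (h' : Rq b c) : Rq a c := by
  have h1 : Met (fromBlocks (fromBlocks a.2.1 0 0 (-b.2.1)) 0 0
      (fromBlocks b.2.1 0 0 (-c.2.1))) := met_sum h h'
  have h2 : Is (fromBlocks (fromBlocks a.2.1 0 0 (-b.2.1)) 0 0 (fromBlocks b.2.1 0 0 (-c.2.1)))
      (fromBlocks (fromBlocks b.2.1 0 0 (-b.2.1)) 0 0 (fromBlocks a.2.1 0 0 (-c.2.1))) :=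
    ((is_four _ _ _ _).trans (Is.sum (is_comm _ _) (Is.refl _))).trans (is_four _ _ _ _)
  refine wcl (sn_sum b.2.2 (sn_neg b.2.2)) (sn_sum a.2.2 (sn_neg c.2.2)) (h2.met h1)
    (met_self_neg _)

/-- the equivalence relation -/
def rs (F : Type) [Field F] : Setoid (QF F) where
  r := Rq
  iseqv := ⟨fun _ => Rq.of_is (Is.refl _), Rq.symm, Rq.trans⟩

theorem Rq.oq {a b a' b' : QF F} (h : Rq a a') (h' : Rq b b') : Rq (oq a b) (oq a' b') := by
  have h1 : Met (fromBlocks (fromBlocks a.2.1 0 0 (-a'.2.1)) 0 0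
      (fromBlocks b.2.1 0 0 (-b'.2.1))) := met_sum h h'
  have h2 := (is_four _ _ _ _).met h1
  rw [← neg_blocks] at h2
  exact (Is.sum (is_osum a.2.1 b.2.1) (is_osum a'.2.1 b'.2.1).neg).met h2

theorem Rq.nq {a a' : QF F} (h : Rq a a') : Rq (nq a) (nq a') := by
  have h1 := met_neg h
  rw [neg_blocks] at h1
  exact h1

/-- the Witt group as a quotient -/
def Q (F : Type) [Field F] : Type := Quotient (rs F)

theorem sn_zero : SN (0 : Matrix (Fin 0) (Fin 0) F) :=
  ⟨Subsingleton.elim _ _, by rw [det_isEmpty]; exact one_ne_zero⟩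

/-- the empty form -/
def zq (F : Type) [Field F] : QF F := ⟨0, 0, sn_zero⟩

theorem is_oq (a b : QF F) : Is (fromBlocks a.2.1 0 0 b.2.1) (oq a b).2.1 := is_osum _ _

theorem is_zq (a : QF F) : Is (fromBlocks a.2.1 0 0 (zq F).2.1) a.2.1 :=
  haveI : IsEmpty (Fin (zq F).1) := inferInstanceAs (IsEmpty (Fin 0))
  is_empty _ _

instance : Add (Q F) := ⟨Quotient.map₂ oq fun _ _ h _ _ h' => Rq.oq h h'⟩

instance : Zero (Q F) := ⟨Quotient.mk (rs F) (zq F)⟩

instance : Neg (Q F) := ⟨Quotient.map nq fun _ _ h => Rq.nq h⟩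

noncomputable instance : AddCommGroup (Q F) where
  nsmul := nsmulRec
  zsmul := zsmulRec
  add_assoc := by
    rintro ⟨a⟩ ⟨b⟩ ⟨c⟩
    refine Quotient.sound (Rq.of_is ?_)
    exact (((is_oq _ _).symm.trans (Is.sum (is_oq _ _).symm (Is.refl _))).trans
      (is_assoc _ _ _)).trans ((Is.sum (Is.refl _) (is_oq _ _)).trans (is_oq _ _))
  zero_add := by
    rintro ⟨a⟩
    refine Quotient.sound (Rq.of_is ?_)
    exact ((is_oq _ _).symm.trans (is_comm _ _)).trans (is_zq a)
  add_zero := by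
    rintro ⟨a⟩
    refine Quotient.sound (Rq.of_is ?_)
    exact (is_oq _ _).symm.trans (is_zq a)
  neg_add_cancel := by
    rintro ⟨a⟩
    refine Quotient.sound ?_
    have h1 : Met (oq (nq a) a).2.1 := (is_oq _ _).met ((is_comm _ _).met (met_self_neg _))
    have h2 : Is (fromBlocks (oq (nq a) a).2.1 0 0 (-(zq F).2.1)) (oq (nq a) a).2.1 :=
      haveI : IsEmpty (Fin (zq F).1) := inferInstanceAs (IsEmpty (Fin 0))
      is_empty _ _
    exact h2.symm.met h1
  add_comm := by
    rintro ⟨a⟩ ⟨b⟩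
    refine Quotient.sound (Rq.of_is ?_)
    exact ((is_oq _ _).symm.trans (is_comm _ _)).trans (is_oq _ _)

/-- the class in the quotient -/
def qm (a : QF F) : Q F := Quotient.mk (rs F) a

theorem qm_zero {a : QF F} : qm a = 0 ↔ Met a.2.1 := by
  have h2 : Is (fromBlocks a.2.1 0 0 (-(zq F).2.1)) a.2.1 :=
    haveI : IsEmpty (Fin (zq F).1) := inferInstanceAs (IsEmpty (Fin 0))
    is_empty _ _
  constructor
  · intro h
    have h1 : Rq a (zq F) := Quotient.exact h
    exact h2.met h1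
  · intro h
    exact Quotient.sound (s := rs F) (h2.symm.met h : Rq a (zq F))

theorem qm_add (a b : QF F) : qm a + qm b = qm (oq a b) := rfl

theorem pf_W0 : T_W0 := by
  intro F _ _ ι _ _ A hA h
  obtain ⟨a, ha, he⟩ := cls_ex hA
  rw [he] at h
  have h1 : FreeAbelianGroup.of a ∈ AddSubgroup.closure (rel F) :=
    (QuotientAddGroup.eq_zero_iff _).1 h
  have h2 : AddSubgroup.closure (rel F) ≤
      (FreeAbelianGroup.lift (qm : QF F → Q F)).ker := by
    rw [AddSubgroup.closure_le]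
    rintro x (⟨a, ha, rfl⟩ | ⟨a, b, c, hc, hr, rfl⟩)
    · change FreeAbelianGroup.lift (qm : QF F → Q F) _ = 0
      rw [FreeAbelianGroup.lift_apply_of]
      exact qm_zero.2 ha
    · change FreeAbelianGroup.lift (qm : QF F → Q F) _ = 0
      rw [map_sub, map_sub, FreeAbelianGroup.lift_apply_of, FreeAbelianGroup.lift_apply_of,
        FreeAbelianGroup.lift_apply_of, sub_sub, sub_eq_zero, qm_add]
      refine Quotient.sound (s := rs F) (Rq.of_is ?_)
      have h3 : Is c.2.1 (osum a.2.1 b.2.1) := by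
        rw [← hr]
        exact is_reindex _ _
      exact h3
  have h3 : qm a = 0 := by
    have := h2 h1
    rw [AddMonoidHom.mem_ker, FreeAbelianGroup.lift_apply_of] at this
    exact this
  exact ha.symm.met (qm_zero.1 h3)

end Pool.Agent.H67.WT
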