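import Pool.Agent.H67.WT.Lib

/-!
# Lagrangian reduction
-/

set_option autoImplicit false

open Matrix Pool.Agent.H63.WT

namespace Pool.Agent.H67.WT

theorem pf_WCL : T_WCL := by
  intro F _ _ m n A B hA hB h hM
  exact wcl hA hB ((is_reindex finSumFinEquiv (fromBlocks A 0 0 B)).symm.met h) hM

end Pool.Agent.H67.WT
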