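import Pool.Agent.H38.WT.Targets

/-!
Board wt (`MP_0cb3c0_co`): rows GMN, CFI, TOP (helper67).
-/

set_option autoImplicit false

namespace Pool.Agent.H67.WT

open Pool.Agent.H38.WT

theorem pf_GMN : T_GMN := by
  rintro m ℓ F k k' G H hℓ hG hGH hk ⟨g, s, g0, hk0, h1, h2⟩
  refine ⟨fun i => if i = 0 then G else g i, s, if_pos rfl, lt_of_le_of_lt hk hk0, ?_, ?_⟩
  · intro i hi
    simp only
    by_cases h0 : i = 0
    · subst h0
      rw [if_pos rfl]
      refine ⟨hG, fun h => (h1 0 hi).2 ?_⟩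
      rw [g0]
      exact hGH h
    · rw [if_neg h0]
      exact h1 i hi
  · intro i hi
    simp only
    rw [if_neg (Nat.succ_ne_zero i)]
    obtain ⟨a, b, c⟩ := h2 i hi
    refine ⟨?_, b, c⟩
    by_cases h0 : i = 0
    · subst h0
      rw [if_pos rfl]
      rw [g0] at a
      exact hGH.trans a
    · rw [if_neg h0]
      exact a

theorem symm_image {m : ℕ} (σ : Equiv.Perm (Fin m)) (G : Set (Fin m)) : σ.symm '' (σ '' G) = G := by
  rw [Set.image_image]
  simp

theorem pf_CFI : T_CFI := by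
  intro m F σ hF
  refine ⟨⟨?_, ?_, ?_⟩, ?_⟩
  · rintro _ ⟨G, hG, rfl⟩
    exact (hF.ne G hG).image σ
  · rintro _ ⟨G, hG, rfl⟩ h
    apply hF.nu G hG
    rw [← symm_image σ G, h, Set.image_univ_of_surjective σ.symm.surjective]
  · rintro _ ⟨G, hG, rfl⟩ _ ⟨H, hH, rfl⟩
    rcases hF.cross G hG H hH with h | h | h | h
    · exact Or.inl (Set.image_mono h)
    · exact Or.inr (Or.inl (Set.image_mono h))
    · exact Or.inr (Or.inr (Or.inl ((Set.disjoint_image_iff σ.injective).2 h)))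
    · right
      right
      right
      rw [← Set.image_union, h, Set.image_univ_of_surjective σ.surjective]
  · ext G
    constructor
    · rintro ⟨_, ⟨H, hH, rfl⟩, rfl⟩
      rw [symm_image]
      exact hH
    · intro hG
      exact ⟨σ '' G, ⟨G, hG, rfl⟩, (symm_image σ G).symm⟩

theorem pf_TOP (h : T_GUN) : T_TOP := by
  intro m ℓ F j hm hF hex
  obtain ⟨G, hG, hj, hgood⟩ := hex
  let S : Set (Set (Fin m)) := {G | G ∈ F ∧ j ∈ G ∧ Good ℓ F j G}
  have hfin : S.Finite := Set.toFinite S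
  obtain ⟨K, hGK, hK⟩ := hfin.exists_le_maximal (a := G) ⟨hG, hj, hgood⟩
  refine ⟨K, hK.1.1, hK.1.2.1, hK.1.2.2, fun L hL hjL hgL => ?_⟩
  rcases hF.cross L hL K hK.1.1 with h1 | h1 | h1 | h1
  · exact h1
  · exact hK.2 ⟨hL, hjL, hgL⟩ h1
  · exact absurd hK.1.2.1 (Set.disjoint_left.1 h1 hjL)
  · exact absurd h1 (h m ℓ F j j L K (by omega) hgL hK.1.2.2)

end Pool.Agent.H67.WT
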