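import Pool.Agent.H63.WT.TA

/-!
# Isometries, isotropic subspaces and metabolic forms
-/

set_option autoImplicit false

open Matrix Pool.Agent.H63.WT

namespace Pool.Agent.H67.WT

variable {F : Type} [Field F] {ι κ μ ν : Type} [Fintype ι] [Fintype κ] [Fintype μ] [Fintype ν]

/-- isotropic subspace -/
def Iso (A : Matrix ι ι F) (W : Submodule F (ι → F)) : Prop :=
  ∀ x ∈ W, ∀ y ∈ W, x ⬝ᵥ (A *ᵥ y) = 0

theorem iso_of_tis {A : Matrix ι ι F} {r : ℕ} (h : TIs A r) :
    ∃ W : Submodule F (ι → F), Iso A W ∧ Module.finrank F W = r := by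
  obtain ⟨b, hb, hz⟩ := h
  refine ⟨Submodule.span F (Set.range b), ?_, ?_⟩
  · intro x hx y hy
    induction hx using Submodule.span_induction with
    | mem x hx =>
      obtain ⟨i, rfl⟩ := hx
      induction hy using Submodule.span_induction with
      | mem y hy =>
        obtain ⟨j, rfl⟩ := hy
        exact hz i j
      | zero => simp
      | add y z _ _ h1 h2 => rw [mulVec_add, dotProduct_add, h1, h2, add_zero]
      | smul c y _ h1 => rw [mulVec_smul, dotProduct_smul, h1, smul_zero]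
    | zero => simp
    | add x z _ _ h1 h2 => rw [add_dotProduct, h1, h2, add_zero]
    | smul c x _ h1 => rw [smul_dotProduct, h1, smul_zero]
  · rw [finrank_span_eq_card hb, Fintype.card_fin]

theorem tis_of_iso {A : Matrix ι ι F} {W : Submodule F (ι → F)} (h : Iso A W) {r : ℕ}
    (hr : r ≤ Module.finrank F W) : TIs A r := by
  have b := Module.finBasis F W
  refine ⟨fun i => (b (Fin.castLE hr i) : ι → F), ?_, ?_⟩
  · have h1 : LinearIndependent F (fun i => (b i : ι → F)) :=
      b.linearIndependent.map' W.subtype (Submodule.ker_subtype W)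
    exact h1.comp _ (Fin.castLE_injective hr)
  · intro i j
    exact h _ (b _).2 _ (b _).2

theorem met_iff {A : Matrix ι ι F} :
    Met A ↔ ∃ W : Submodule F (ι → F), Iso A W ∧ Fintype.card ι = 2 * Module.finrank F W := by
  constructor
  · rintro ⟨r, hr, h⟩
    obtain ⟨W, hW, hd⟩ := iso_of_tis h
    exact ⟨W, hW, by rw [hd, hr]⟩
  · rintro ⟨W, hW, hd⟩
    exact ⟨_, hd, tis_of_iso hW le_rfl⟩

theorem met_of_le {A : Matrix ι ι F} {W : Submodule F (ι → F)} (h : Iso A W) {r : ℕ}
    (hc : Fintype.card ι = 2 * r) (hr : r ≤ Module.finrank F W) : Met A :=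
  ⟨r, hc, tis_of_iso h hr⟩

/-- isometric matrices -/
def Is (A : Matrix ι ι F) (B : Matrix κ κ F) : Prop :=
  ∃ f : (ι → F) ≃ₗ[F] (κ → F), ∀ x y, f x ⬝ᵥ (B *ᵥ f y) = x ⬝ᵥ (A *ᵥ y)

theorem Is.refl (A : Matrix ι ι F) : Is A A := ⟨LinearEquiv.refl F _, fun _ _ => rfl⟩

theorem Is.symm {A : Matrix ι ι F} {B : Matrix κ κ F} (h : Is A B) : Is B A := by
  obtain ⟨f, hf⟩ := h
  refine ⟨f.symm, fun x y => ?_⟩
  rw [← hf, f.apply_symm_apply, f.apply_symm_apply]

theorem Is.trans {A : Matrix ι ι F} {B : Matrix κ κ F} {C : Matrix μ μ F} (h : Is A B)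
    (h' : Is B C) : Is A C := by
  obtain ⟨f, hf⟩ := h
  obtain ⟨g, hg⟩ := h'
  refine ⟨f.trans g, fun x y => ?_⟩
  rw [LinearEquiv.trans_apply, LinearEquiv.trans_apply, hg, hf]

theorem Is.neg {A : Matrix ι ι F} {B : Matrix κ κ F} (h : Is A B) : Is (-A) (-B) := by
  obtain ⟨f, hf⟩ := h
  refine ⟨f, fun x y => ?_⟩
  rw [neg_mulVec, neg_mulVec, dotProduct_neg, dotProduct_neg, hf]

theorem Is.card {A : Matrix ι ι F} {B : Matrix κ κ F} (h : Is A B) :
    Fintype.card ι = Fintype.card κ := by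
  obtain ⟨f, -⟩ := h
  have := f.finrank_eq
  rwa [Module.finrank_fintype_fun_eq_card, Module.finrank_fintype_fun_eq_card] at this

theorem Is.met {A : Matrix ι ι F} {B : Matrix κ κ F} (h : Is A B) (hA : Met A) : Met B := by
  have hc := h.card
  obtain ⟨f, hf⟩ := h
  obtain ⟨W, hW, hd⟩ := met_iff.1 hA
  refine met_iff.2 ⟨W.map (f : (ι → F) →ₗ[F] (κ → F)), ?_, ?_⟩
  · rintro _ ⟨x, hx, rfl⟩ _ ⟨y, hy, rfl⟩
    exact (hf x y).trans (hW x hx y hy)
  · rw [← hc, hd, LinearEquiv.finrank_map_eq]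

theorem is_of_equiv (e : ι ≃ κ) {A : Matrix ι ι F} {B : Matrix κ κ F}
    (h : ∀ i j, B (e i) (e j) = A i j) : Is A B := by
  refine ⟨LinearEquiv.funCongrLeft F F e.symm, fun x y => ?_⟩
  simp only [dotProduct, mulVec, LinearEquiv.funCongrLeft_apply, LinearMap.funLeft_apply]
  rw [← e.sum_comp]
  refine Finset.sum_congr rfl fun i _ => ?_
  rw [e.symm_apply_apply, ← e.sum_comp]
  simp only [e.symm_apply_apply, h]

theorem is_reindex (e : ι ≃ κ) (A : Matrix ι ι F) : Is A (reindex e e A) :=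
  is_of_equiv e fun i j => by simp

theorem is_comm (A : Matrix ι ι F) (B : Matrix κ κ F) :
    Is (fromBlocks A 0 0 B) (fromBlocks B 0 0 A) :=
  is_of_equiv (Equiv.sumComm ι κ) fun i j => by rcases i with i | i <;> rcases j with j | j <;> rfl

theorem is_assoc (A : Matrix ι ι F) (B : Matrix κ κ F) (C : Matrix μ μ F) :
    Is (fromBlocks (fromBlocks A 0 0 B) 0 0 C) (fromBlocks A 0 0 (fromBlocks B 0 0 C)) :=
  is_of_equiv (Equiv.sumAssoc ι κ μ) fun i j => by
    rcases i with (i | i) | i <;> rcases j with (j | j) | j <;> rfl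

theorem is_four (A : Matrix ι ι F) (B : Matrix κ κ F) (C : Matrix μ μ F) (D : Matrix ν ν F) :
    Is (fromBlocks (fromBlocks A 0 0 B) 0 0 (fromBlocks C 0 0 D))
      (fromBlocks (fromBlocks A 0 0 C) 0 0 (fromBlocks B 0 0 D)) :=
  is_of_equiv (Equiv.sumSumSumComm ι κ μ ν) fun i j => by
    rcases i with (i | i) | (i | i) <;> rcases j with (j | j) | (j | j) <;> rfl

theorem bl (A : Matrix ι ι F) (B : Matrix κ κ F) (x x' : ι → F) (y y' : κ → F) :
    (Sum.elim x y) ⬝ᵥ (fromBlocks A 0 0 B *ᵥ (Sum.elim x' y')) =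
      x ⬝ᵥ (A *ᵥ x') + y ⬝ᵥ (B *ᵥ y') := by
  rw [fromBlocks_mulVec, sumElim_dotProduct_sumElim]
  simp

theorem Is.sum {A : Matrix ι ι F} {B : Matrix κ κ F} {A' : Matrix μ μ F} {B' : Matrix ν ν F}
    (h : Is A A') (h' : Is B B') : Is (fromBlocks A 0 0 B) (fromBlocks A' 0 0 B') := by
  obtain ⟨f, hf⟩ := h
  obtain ⟨g, hg⟩ := h'
  refine ⟨(LinearEquiv.sumArrowLequivProdArrow ι κ F F).trans ((f.prodCongr g).trans
    (LinearEquiv.sumArrowLequivProdArrow μ ν F F).symm), fun x y => ?_⟩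
  have e : ∀ x : ι ⊕ κ → F, ((LinearEquiv.sumArrowLequivProdArrow ι κ F F).trans
      ((f.prodCongr g).trans (LinearEquiv.sumArrowLequivProdArrow μ ν F F).symm)) x =
      Sum.elim (f (x ∘ Sum.inl)) (g (x ∘ Sum.inr)) := by
    intro x
    ext i
    rcases i with i | i <;> rfl
  rw [e, e, bl, hf, hg, ← bl, Sum.elim_comp_inl_inr, Sum.elim_comp_inl_inr]

theorem is_empty (A : Matrix ι ι F) (B : Matrix κ κ F) [IsEmpty κ] :
    Is (fromBlocks A 0 0 B) A :=
  is_of_equiv (Equiv.sumEmpty ι κ) fun i j => by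
    rcases i with i | i
    · rcases j with j | j
      · rfl
      · exact isEmptyElim j
    · exact isEmptyElim i

theorem met_self_neg (A : Matrix ι ι F) : Met (fromBlocks A 0 0 (-A)) := by
  refine met_iff.2 ⟨LinearMap.range ((LinearEquiv.sumArrowLequivProdArrow ι ι F F).symm.toLinearMap ∘ₗ
    (LinearMap.prod LinearMap.id LinearMap.id : (ι → F) →ₗ[F] (ι → F) × (ι → F))), ?_, ?_⟩
  · rintro _ ⟨x, rfl⟩ _ ⟨y, rfl⟩
    have e : ∀ x : ι → F, ((LinearEquiv.sumArrowLequivProdArrow ι ι F F).symm.toLinearMap ∘ₗ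
        (LinearMap.prod LinearMap.id LinearMap.id : (ι → F) →ₗ[F] (ι → F) × (ι → F))) x =
        Sum.elim x x := by
      intro x
      ext i
      rcases i with i | i <;> rfl
    rw [e, e, bl, neg_mulVec, dotProduct_neg, add_neg_cancel]
  · rw [LinearMap.finrank_range_of_inj, Module.finrank_fintype_fun_eq_card, Fintype.card_sum]
    · ring
    · intro x y h
      have := congrArg (LinearEquiv.sumArrowLequivProdArrow ι ι F F) h
      simp only [LinearMap.comp_apply, LinearEquiv.coe_coe, LinearEquiv.apply_symm_apply,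
        LinearMap.prod_apply, Function.prod] at this
      exact (Prod.ext_iff.1 this).1

theorem Is.met_neg {A : Matrix ι ι F} {B : Matrix κ κ F} (h : Is A B) :
    Met (fromBlocks A 0 0 (-B)) :=
  ((Is.sum h (Is.refl (-B))).symm).met (met_self_neg B)

theorem met_neg {A : Matrix ι ι F} (h : Met A) : Met (-A) := by
  obtain ⟨W, hW, hd⟩ := met_iff.1 h
  refine met_iff.2 ⟨W, fun x hx y hy => ?_, hd⟩
  rw [neg_mulVec, dotProduct_neg, hW x hx y hy, neg_zero]

omit [Fintype ι] [Fintype κ] in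
theorem elim_eq (x : (ι → F) × (κ → F)) :
    (LinearEquiv.sumArrowLequivProdArrow ι κ F F).symm x = Sum.elim x.1 x.2 := by
  ext i
  rcases i with i | i <;> rfl

theorem met_sum {A : Matrix ι ι F} {B : Matrix κ κ F} (hA : Met A) (hB : Met B) :
    Met (fromBlocks A 0 0 B) := by
  obtain ⟨W, hW, hd⟩ := met_iff.1 hA
  obtain ⟨W', hW', hd'⟩ := met_iff.1 hB
  refine met_iff.2 ⟨LinearMap.range
    ((LinearEquiv.sumArrowLequivProdArrow ι κ F F).symm.toLinearMap ∘ₗ
      (W.subtype.prodMap W'.subtype)), ?_, ?_⟩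
  · rintro _ ⟨x, rfl⟩ _ ⟨y, rfl⟩
    have e : ∀ x : W × W', ((LinearEquiv.sumArrowLequivProdArrow ι κ F F).symm.toLinearMap ∘ₗ
        (W.subtype.prodMap W'.subtype)) x = Sum.elim (x.1 : ι → F) (x.2 : κ → F) :=
      fun x => elim_eq _
    rw [e, e, bl, hW _ x.1.2 _ y.1.2, hW' _ x.2.2 _ y.2.2, add_zero]
  · rw [LinearMap.finrank_range_of_inj, Module.finrank_prod, Fintype.card_sum, hd, hd']
    · ring
    · rw [LinearMap.coe_comp]
      refine (LinearEquiv.injective _).comp ?_
      intro x y h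
      have h1 := Prod.ext_iff.1 h
      exact Prod.ext (Subtype.ext h1.1) (Subtype.ext h1.2)

/-- two orthogonal subspaces -/
theorem orth_le [DecidableEq ι] {M : Matrix ι ι F} (hM : SN M) (D E : Submodule F (ι → F))
    (h : ∀ x ∈ D, ∀ y ∈ E, x ⬝ᵥ (M *ᵥ y) = 0) :
    Module.finrank F D + Module.finrank F E ≤ Fintype.card ι := by
  have hnd : (Matrix.toBilin' M).Nondegenerate :=
    LinearMap.BilinForm.nondegenerate_toBilin'_of_det_ne_zero' M hM.2
  have hle : E ≤ (Matrix.toBilin' M).orthogonal D := by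
    intro y hy
    rw [LinearMap.BilinForm.mem_orthogonal_iff]
    intro x hx
    rw [Matrix.toBilin'_apply']
    exact h x hx y hy
  have h1 := Submodule.finrank_mono hle
  rw [LinearMap.BilinForm.finrank_orthogonal hnd, Module.finrank_fintype_fun_eq_card] at h1
  have h2 := Submodule.finrank_le D
  rw [Module.finrank_fintype_fun_eq_card] at h2
  omega

theorem sn_sum [DecidableEq ι] [DecidableEq κ] {A : Matrix ι ι F} {B : Matrix κ κ F} (hA : SN A)
    (hB : SN B) : SN (fromBlocks A 0 0 B) := by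
  refine ⟨?_, ?_⟩
  · rw [Matrix.IsSymm, fromBlocks_transpose, hA.1, hB.1, transpose_zero, transpose_zero]
  · rw [det_fromBlocks_zero₂₁]
    exact mul_ne_zero hA.2 hB.2

theorem sn_neg [DecidableEq ι] {A : Matrix ι ι F} (hA : SN A) : SN (-A) := by
  refine ⟨?_, ?_⟩
  · rw [Matrix.IsSymm, transpose_neg, hA.1]
  · rw [det_neg]
    exact mul_ne_zero (pow_ne_zero _ (neg_ne_zero.2 one_ne_zero)) hA.2

theorem sn_reindex [DecidableEq ι] [DecidableEq κ] (e : ι ≃ κ) {A : Matrix ι ι F} (hA : SN A) :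
    SN (reindex e e A) := by
  refine ⟨?_, ?_⟩
  · rw [Matrix.IsSymm, transpose_reindex, hA.1]
  · rw [det_reindex_self]
    exact hA.2

theorem rank_map {V V' : Type} [AddCommGroup V] [Module F V] [FiniteDimensional F V]
    [AddCommGroup V'] [Module F V'] (f : V →ₗ[F] V') (P : Submodule F V) :
    Module.finrank F (P.map f) + Module.finrank F (P ⊓ LinearMap.ker f : Submodule F V) =
      Module.finrank F P := by
  have h := (f.domRestrict P).finrank_range_add_finrank_ker
  rw [LinearMap.range_domRestrict] at h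
  have h1 : LinearMap.ker (f.domRestrict P) = (LinearMap.ker f).comap P.subtype := rfl
  rw [h1, ← Submodule.finrank_map_subtype_eq P, Submodule.map_comap_subtype] at h
  exact h

/-- cancellation of a metabolic summand -/
theorem wcl [DecidableEq ι] [DecidableEq κ] {A : Matrix ι ι F} {B : Matrix κ κ F} (hA : SN A)
    (hB : SN B) (h : Met (fromBlocks A 0 0 B)) (hM : Met A) : Met B := by
  obtain ⟨W, hW, hd⟩ := met_iff.1 h
  obtain ⟨L, hL, hl⟩ := met_iff.1 hM
  rw [Fintype.card_sum] at hd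
  -- the projections
  set pl : (ι ⊕ κ → F) →ₗ[F] (ι → F) := LinearMap.funLeft F F Sum.inl with hpl
  set pr : (ι ⊕ κ → F) →ₗ[F] (κ → F) := LinearMap.funLeft F F Sum.inr with hpr
  set N : Submodule F (ι ⊕ κ → F) := L.comap pl with hN
  set D : Submodule F (ι ⊕ κ → F) := W ⊓ N ⊓ LinearMap.ker pr with hD
  have ee : ∀ x : ι ⊕ κ → F, x = Sum.elim (pl x) (pr x) := by
    intro x
    ext i
    rcases i with i | i <;> rfl
  -- dimension of N
  have hNd : Module.finrank F N = Module.finrank F L + Fintype.card κ := by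
    have hs : Function.Surjective pl := fun x => ⟨Sum.elim x 0, by ext i; rfl⟩
    have h1 := rank_map pl N
    have h2 : N.map pl = L := Submodule.map_comap_eq_of_surjective hs L
    have h3 : N ⊓ LinearMap.ker pl = LinearMap.ker pl := by
      refine inf_eq_right.2 fun x hx => ?_
      have hx' : pl x = 0 := hx
      change pl x ∈ L
      rw [hx']
      exact L.zero_mem
    have h4 := pl.finrank_range_add_finrank_ker
    rw [LinearMap.range_eq_top.2 hs, finrank_top, Module.finrank_fintype_fun_eq_card,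
      Module.finrank_fintype_fun_eq_card, Fintype.card_sum] at h4
    rw [h2, h3] at h1
    omega
  have h1 : Module.finrank F D + Module.finrank F (W ⊔ N : Submodule F (ι ⊕ κ → F)) ≤
      Fintype.card (ι ⊕ κ) := by
    refine orth_le (sn_sum hA hB) _ _ ?_
    intro x hx y hy
    obtain ⟨w, hw, z, hz, rfl⟩ := Submodule.mem_sup.1 hy
    rw [mulVec_add, dotProduct_add, hW x hx.1.1 w hw, zero_add]
    have hx2 : pr x = 0 := hx.2
    rw [ee x, ee z, bl, hx2, zero_dotProduct, add_zero]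
    exact hL _ hx.1.2 _ hz
  have h2 := Submodule.finrank_sup_add_finrank_inf_eq W N
  have h3 : Module.finrank F ((W ⊓ N).map pr) + Module.finrank F D =
      Module.finrank F (W ⊓ N : Submodule F (ι ⊕ κ → F)) := rank_map pr (W ⊓ N)
  rw [Fintype.card_sum] at h1
  refine met_of_le (W := (W ⊓ N).map pr) (r := Fintype.card κ / 2) ?_ (by omega) (by omega)
  rintro _ ⟨x, hx, rfl⟩ _ ⟨y, hy, rfl⟩
  have h4 := hW x hx.1 y hy.1
  rw [ee x, ee y, bl, hL _ hx.2 _ hy.2, zero_add] at h4
  exact h4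

end Pool.Agent.H67.WT
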